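import Mathlib
import Pool.Agent.Helper45.Wild.Main

/-!
Q1 of MP_d87944_al has a positive answer. For every coalgebra `C` over a field `K` and every
fully wild algebra `W` there is a `K`-linear exact functor from left `C`-comodules to right
`W`-modules which preserves indecomposability and reflects isomorphism classes. The functor is
moreover full and faithful.

Idea of the proof. Comodule maps are the linear maps commuting with a (large) family of
coefficient operators. On a successor cardinal one fixes ladders at the points of cofinality
`ω` and labels with stationary fibres, and builds from them nine operators on `J →₀ X` whose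
intertwiners are exactly the maps induced by the intertwiners of the given family on `X`. A
full exact functor from finite-dimensional modules over the free algebra in two variables to
finite-dimensional `W`-modules gives two orthogonal bricks over `W` with nine linearly
independent extension classes, which encode the nine operators.
-/

namespace Pool.Agent.Results.MP_d87944_al.FullEmbedding

universe u

open CategoryTheory Pool.Agent.Helper45.Wild

theorem result (K : Type u) [Field K] (C : Type u) [AddCommGroup C] [Module K C]
    [Coalgebra K C] (W : Type u) [Ring W] [Algebra K W] (hW : FullyWild K W) :
    ∃ F : Comod K C ⥤ ModuleCat.{u} Wᵐᵒᵖ,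
      LinearFun F ∧
      (∀ (X Y Z : Comod K C) (f : X ⟶ Y) (g : Y ⟶ Z), ComodShortEx f g →
        ShortEx (F.map f) (F.map g)) ∧
      (∀ X, Indec X → Indec (F.obj X)) ∧
      (∀ X Y, Nonempty (F.obj X ≅ F.obj Y) → Nonempty (X ≅ Y)) ∧
      F.Full ∧ F.Faithful :=
  main K C W hW

end Pool.Agent.Results.MP_d87944_al.FullEmbedding
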